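import Pool.Agent.H3RD.W830.RD.Stm

set_option autoImplicit false

namespace Pool.Agent.W657.RD.PBas

open Finset Pool.Agent.W830.RD
open scoped Classical

theorem main : S_PBAS := by
  intro p n hp hp1
  have hw : ∀ E : Finset (Fin n × Fin n), 0 ≤ p ^ E.card * (1 - p) ^ ((Om n).card - E.card) :=
    fun E => mul_nonneg (pow_nonneg hp.le _) (pow_nonneg (by linarith) _)
  have h0 : Pr p n (fun _ => True) =
      ∑ E ∈ (Om n).powerset, p ^ E.card * (1 - p) ^ ((Om n).card - E.card) := by
    unfold Pr
    refine Finset.sum_congr ?_ fun _ _ => rfl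
    ext E
    simp
  have h1 : Pr p n (fun _ => True) = 1 := by
    rw [h0, Finset.sum_pow_mul_eq_add_pow]
    rw [add_sub_cancel, one_pow]
  have h2 : ∀ A : Finset (Fin n × Fin n) → Prop, 0 ≤ Pr p n A := fun A =>
    Finset.sum_nonneg fun E _ => hw E
  have h3 : ∀ A B : Finset (Fin n × Fin n) → Prop, (∀ E, E ⊆ Om n → A E → B E) →
      Pr p n A ≤ Pr p n B := by
    intro A B hAB
    unfold Pr
    refine Finset.sum_le_sum_of_subset_of_nonneg ?_ fun E _ _ => hw E
    intro E hE
    rw [mem_filter] at hE ⊢
    exact ⟨hE.1, hAB E (mem_powerset.1 hE.1) hE.2⟩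
  have h4 : ∀ A B : Finset (Fin n × Fin n) → Prop,
      Pr p n (fun E => A E ∨ B E) ≤ Pr p n A + Pr p n B := by
    intro A B
    have e : Pr p n (fun E => A E ∨ B E) =
        ∑ E ∈ (Om n).powerset.filter A ∪ (Om n).powerset.filter B,
          p ^ E.card * (1 - p) ^ ((Om n).card - E.card) := by
      unfold Pr
      refine Finset.sum_congr ?_ fun _ _ => rfl
      ext E
      simp only [mem_filter, mem_union]
      tauto
    rw [e]
    unfold Pr
    rw [← Finset.sum_union_inter]
    exact le_add_of_nonneg_right (Finset.sum_nonneg fun E _ => hw E)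
  have h5 : ∀ A : Finset (Fin n × Fin n) → Prop, Pr p n (fun E => ¬ A E) = 1 - Pr p n A := by
    intro A
    rw [← h1, h0]
    unfold Pr
    rw [← Finset.sum_filter_add_sum_filter_not (Om n).powerset A]
    rw [add_sub_cancel_left]
    refine Finset.sum_congr ?_ fun _ _ => rfl
    ext E
    simp only [mem_filter]
  refine ⟨h1, h2, h3, h4, h5, ?_⟩
  intro ι s A
  induction s using Finset.induction_on with
  | empty =>
    rw [Finset.sum_empty]
    refine le_of_eq ?_
    unfold Pr
    refine Finset.sum_eq_zero fun E hE => ?_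
    obtain ⟨_, i, hi, _⟩ := (@Finset.mem_filter _ _ (fun _ => Classical.propDecidable _) _ _).1 hE
    exact absurd hi (Finset.notMem_empty i)
  | insert i s hi ih =>
    rw [Finset.sum_insert hi]
    have h6 : Pr p n (fun E => ∃ j ∈ insert i s, A j E) ≤
        Pr p n (fun E => A i E ∨ ∃ j ∈ s, A j E) := by
      apply h3
      rintro E _ ⟨j, hj, hA⟩
      rcases mem_insert.1 hj with h | h
      · left
        rw [← h]
        exact hA
      · exact Or.inr ⟨j, h, hA⟩
    exact h6.trans ((h4 _ _).trans (add_le_add le_rfl ih))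

end Pool.Agent.W657.RD.PBas
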